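import Mathlib
import Pool.Agent.W544.EG.Gen

/-! # Close homomorphisms of a finite group into a compact matrix group are conjugate -/

set_option autoImplicit false
set_option linter.unusedSectionVars false

open Filter Topology

namespace Pool.Agent.R738.PF

open Pool.Agent.W544.EG

variable {𝔸 : Type} [NormedRing 𝔸] [NormedAlgebra ℝ 𝔸] [FiniteDimensional ℝ 𝔸] [StarRing 𝔸]
  [StarModule ℝ 𝔸] [ContinuousStar 𝔸]
variable {G : Set 𝔸} {L : Submodule ℝ 𝔸}

theorem exp_lin {ε : ℝ} (hε : 0 < ε) :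
    ∃ r > 0, ∀ X : 𝔸, ‖X‖ < r → ‖NormedSpace.exp X - 1 - X‖ ≤ ε * ‖X‖ := by
  have h := (exp_strict (𝔸 := 𝔸)).hasFDerivAt
  rw [hasFDerivAt_iff_isLittleO_nhds_zero] at h
  have h2 := h.def hε
  obtain ⟨r, hr, h3⟩ := Metric.eventually_nhds_iff.1 h2
  refine ⟨r, hr, fun X hX => ?_⟩
  have h4 := h3 (y := X) (by rwa [dist_zero_right])
  simpa [exp_zero'] using h4

/-- one step of the Newton iteration -/
theorem step (hG : IsG G L) : ∃ δ₀ > 0, ∀ (ι : Type) [Fintype ι] [Nonempty ι]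
    (t : ι → Equiv.Perm ι) (ρ σ : ι → 𝔸), (∀ i, ρ i ∈ G) → (∀ i, σ i ∈ G) →
    (∀ i j, ρ i * ρ j = ρ (t i j)) → (∀ i j, σ i * σ j = σ (t i j)) →
    ∀ δ, 0 ≤ δ → δ < δ₀ → (∀ i, ‖σ i - ρ i‖ ≤ δ) →
    ∃ h ∈ G, ∀ i, ‖star h * σ i * h - ρ i‖ ≤ δ / 2 := by
  obtain ⟨r, hr, hexp⟩ := exp_lin (𝔸 := 𝔸) (ε := 1 / 24) (by norm_num)
  obtain ⟨η, hη, hnear⟩ := near_one hG hr
  refine ⟨min η (min 1 (r / 2)), by positivity, ?_⟩
  intro ι _ _ t ρ σ hρ hσ hρt hσt δ hδ0 hδ hclose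
  have hδη : δ < η := hδ.trans_le (min_le_left _ _)
  have hδ1 : δ < 1 := hδ.trans_le ((min_le_right _ _).trans (min_le_left _ _))
  have hδr : δ < r / 2 := hδ.trans_le ((min_le_right _ _).trans (min_le_right _ _))
  set u : ι → 𝔸 := fun i => σ i * star (ρ i) with hu
  set v : ι → 𝔸 := fun i => u i - 1 with hv
  have huG : ∀ i, u i ∈ G := fun i => hG.mul _ (hσ i) _ (hG.st _ (hρ i))
  have hvn : ∀ i, ‖v i‖ ≤ δ := by
    intro i
    have h1 : v i = (σ i - ρ i) * star (ρ i) := by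
      simp only [hv, hu]
      rw [sub_mul, hG.ms _ (hρ i)]
    rw [h1, hG.isom' _ (hG.st _ (hρ i))]
    exact hclose i
  have hc : ∀ i, ∃ X ∈ L, ‖X‖ < r ∧ NormedSpace.exp X = u i := fun i =>
    hnear (u i) (huG i) ((hvn i).trans_lt hδη)
  choose c hcL hcr hcu using hc
  have hcv : ∀ i, ‖c i - v i‖ ≤ 1 / 24 * ‖c i‖ := by
    intro i
    have h1 := hexp (c i) (hcr i)
    rw [hcu i, norm_sub_rev] at h1
    exact h1
  have hcn : ∀ i, ‖c i‖ ≤ 2 * δ := by
    intro i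
    have h1 := hcv i
    have h2 : ‖c i‖ ≤ ‖c i - v i‖ + ‖v i‖ := by
      calc ‖c i‖ = ‖(c i - v i) + v i‖ := by rw [sub_add_cancel]
        _ ≤ _ := norm_add_le _ _
    have h3 := hvn i
    have h4 : 0 ≤ ‖c i‖ := norm_nonneg _
    linarith
  have hcard : (0 : ℝ) < Fintype.card ι := by exact_mod_cast Fintype.card_pos
  set κ : ℝ := (Fintype.card ι : ℝ)⁻¹ with hκ
  have hκ0 : 0 < κ := by positivity
  set b : 𝔸 := κ • ∑ j, c j with hb
  set w : 𝔸 := κ • ∑ j, v j with hw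
  have avg : ∀ (f : ι → 𝔸) (C : ℝ), (∀ i, ‖f i‖ ≤ C) → ‖κ • ∑ j, f j‖ ≤ C := by
    intro f C hf
    rw [norm_smul, Real.norm_of_nonneg hκ0.le]
    have h1 : ‖∑ j, f j‖ ≤ Fintype.card ι * C := by
      refine (norm_sum_le _ _).trans ((Finset.sum_le_sum fun j _ => hf j).trans ?_)
      rw [Finset.sum_const, Finset.card_univ, nsmul_eq_mul]
    calc κ * ‖∑ j, f j‖ ≤ κ * (Fintype.card ι * C) := by gcongr
      _ = C := by rw [hκ]; field_simp
  have hbn : ‖b‖ ≤ 2 * δ := avg c _ hcn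
  have hbw : ‖b - w‖ ≤ δ / 12 := by
    have h1 : b - w = κ • ∑ j, (c j - v j) := by
      rw [hb, hw, ← smul_sub, ← Finset.sum_sub_distrib]
    rw [h1]
    refine avg _ _ fun i => ?_
    have := hcv i
    have := hcn i
    linarith
  have hbL : b ∈ L := L.smul_mem _ (L.sum_mem fun i _ => hcL i)
  set h : 𝔸 := NormedSpace.exp b with hh
  have hhG : h ∈ G := hG.exp_mem hbL
  set d : 𝔸 := h - 1 - w with hd
  have hdn : ‖d‖ ≤ δ / 6 := by
    have h1 : d = (h - 1 - b) + (b - w) := by rw [hd]; abel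
    have h2 := hexp b (by linarith)
    rw [h1]
    refine (norm_add_le _ _).trans ?_
    have : ‖h - 1 - b‖ ≤ 1 / 24 * ‖b‖ := h2
    linarith
  refine ⟨h, hhG, fun i => ?_⟩
  -- the averaged cocycle identity
  have huu : ∀ j, u (t i j) = u i * (ρ i * u j * star (ρ i)) := by
    intro j
    simp only [hu]
    rw [← hσt, ← hρt, star_mul]
    calc σ i * σ j * (star (ρ j) * star (ρ i)) = σ i * 1 * (σ j * star (ρ j)) * star (ρ i) := by
          noncomm_ring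
      _ = _ := by rw [← hG.sm _ (hρ i)]; noncomm_ring
  have hvv : ∀ j, v (t i j) = v i + ρ i * v j * star (ρ i) + v i * (ρ i * v j * star (ρ i)) := by
    intro j
    have h1 : ρ i * u j * star (ρ i) = 1 + ρ i * v j * star (ρ i) := by
      simp only [hv]
      rw [mul_sub, sub_mul, mul_one, hG.ms _ (hρ i)]
      abel
    simp only [hv] at h1 ⊢
    rw [huu j, h1]
    noncomm_ring
  have hww : w = v i + ρ i * w * star (ρ i) + v i * (ρ i * w * star (ρ i)) := by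
    have h1 : ∑ j, v (t i j) = ∑ j, v j := Equiv.sum_comp (t i) v
    have h2 : ∑ j, v j = (Fintype.card ι : ℝ) • v i + ρ i * (∑ j, v j) * star (ρ i) +
        v i * (ρ i * (∑ j, v j) * star (ρ i)) := by
      rw [← h1]
      conv_lhs => rw [Finset.sum_congr rfl fun j _ => hvv j]
      rw [Finset.sum_add_distrib, Finset.sum_add_distrib, Finset.sum_const, Finset.card_univ,
        h1, Finset.mul_sum, Finset.sum_mul, Finset.mul_sum, ← Nat.cast_smul_eq_nsmul ℝ]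
    have h3 : w = κ • ((Fintype.card ι : ℝ) • v i + ρ i * (∑ j, v j) * star (ρ i) +
        v i * (ρ i * (∑ j, v j) * star (ρ i))) := by rw [← h2]
    rw [smul_add, smul_add, smul_smul, hκ, inv_mul_cancel₀ hcard.ne', one_smul, ← hκ] at h3
    have h4 : κ • (ρ i * (∑ j, v j) * star (ρ i)) = ρ i * w * star (ρ i) := by
      rw [hw, mul_smul_comm, smul_mul_assoc]
    rw [← mul_smul_comm κ (v i), h4] at h3
    exact h3
  have h1 : ‖star h * σ i * h - ρ i‖ = ‖σ i * h * star (ρ i) - h‖ := by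
    rw [← hG.isom _ hhG (star h * σ i * h - ρ i), ← hG.isom' _ (hG.st _ (hρ i))
      (h * (star h * σ i * h - ρ i))]
    congr 1
    calc h * (star h * σ i * h - ρ i) * star (ρ i) = (h * star h) * σ i * h * star (ρ i) -
          h * (ρ i * star (ρ i)) := by noncomm_ring
      _ = _ := by rw [hG.ms _ hhG, hG.ms _ (hρ i)]; noncomm_ring
  have h2 : σ i * h * star (ρ i) = u i * (ρ i * h * star (ρ i)) := by
    simp only [hu]
    calc σ i * h * star (ρ i) = σ i * 1 * h * star (ρ i) := by noncomm_ring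
      _ = _ := by rw [← hG.sm _ (hρ i)]; noncomm_ring
  have h3 : ρ i * h * star (ρ i) = 1 + ρ i * w * star (ρ i) + ρ i * d * star (ρ i) := by
    have : h = 1 + w + d := by rw [hd]; abel
    conv_lhs => rw [this]
    rw [mul_add, mul_add, add_mul, add_mul, mul_one, hG.ms _ (hρ i)]
  have h4 : σ i * h * star (ρ i) - h = ρ i * d * star (ρ i) + v i * (ρ i * d * star (ρ i)) - d := by
    have e1 : u i = 1 + v i := by simp only [hv]; abel
    have e2 : h = 1 + w + d := by rw [hd]; abel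
    rw [h2, h3, e1]
    conv_lhs => rw [e2]
    have e3 : (1 + v i) * (1 + ρ i * w * star (ρ i) + ρ i * d * star (ρ i)) - (1 + w + d) =
      (v i + ρ i * w * star (ρ i) + v i * (ρ i * w * star (ρ i)) - w) +
        (ρ i * d * star (ρ i) + v i * (ρ i * d * star (ρ i)) - d) := by noncomm_ring
    rw [e3, ← hww, sub_self, zero_add]
  rw [h1, h4]
  have h5 : ‖ρ i * d * star (ρ i)‖ = ‖d‖ := hG.norm_conj (hρ i) d
  calc ‖ρ i * d * star (ρ i) + v i * (ρ i * d * star (ρ i)) - d‖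
      ≤ ‖ρ i * d * star (ρ i)‖ + ‖v i‖ * ‖ρ i * d * star (ρ i)‖ + ‖d‖ :=
        (norm_sub_le _ _).trans (add_le_add_left ((norm_add_le _ _).trans
          (add_le_add_right (norm_mul_le _ _) _)) _)
    _ ≤ δ / 6 + 1 * (δ / 6) + δ / 6 := by
        rw [h5]
        have := hvn i
        have h6 : ‖v i‖ ≤ 1 := by linarith
        have h7 : ‖v i‖ * ‖d‖ ≤ 1 * (δ / 6) := mul_le_mul h6 hdn (norm_nonneg _) zero_le_one
        linarith
    _ = δ / 2 := by ring

/-- Homomorphisms of a finite group into `G` which are close to each other are conjugate. -/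
theorem rigid (hG : IsG G L) : ∃ δ₀ > 0, ∀ (ι : Type) [Fintype ι] [Nonempty ι]
    (t : ι → Equiv.Perm ι) (ρ σ : ι → 𝔸), (∀ i, ρ i ∈ G) → (∀ i, σ i ∈ G) →
    (∀ i j, ρ i * ρ j = ρ (t i j)) → (∀ i j, σ i * σ j = σ (t i j)) →
    (∀ i, ‖σ i - ρ i‖ < δ₀) → ∃ h ∈ G, ∀ i, star h * σ i * h = ρ i := by
  obtain ⟨δ₀, hδ₀, hstep⟩ := step hG
  refine ⟨δ₀, hδ₀, ?_⟩
  intro ι _ _ t ρ σ hρ hσ hρt hσt hclose
  set D : 𝔸 → ℝ := fun h => ‖fun i => star h * σ i * h - ρ i‖ with hD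
  have hcont : Continuous D := by
    refine continuous_norm.comp (continuous_pi fun i => ?_)
    exact ((continuous_star.mul continuous_const).mul continuous_id).sub continuous_const
  obtain ⟨h₀, hh₀, hmin⟩ := hG.compact.exists_isMinOn ⟨1, hG.one⟩ hcont.continuousOn
  have h1 : D h₀ < δ₀ := by
    refine (hmin hG.one).trans_lt ?_
    simp only [hD]
    rw [pi_norm_lt_iff hδ₀]
    intro i
    rw [star_one, one_mul, mul_one]
    exact hclose i
  have hσ' : ∀ i, star h₀ * σ i * h₀ ∈ G := fun i =>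
    hG.mul _ (hG.mul _ (hG.st _ hh₀) _ (hσ i)) _ hh₀
  obtain ⟨h₁, hh₁, h2⟩ := hstep ι t ρ (fun i => star h₀ * σ i * h₀) hρ hσ' hρt (fun i j => by
    rw [← hσt]
    calc star h₀ * σ i * h₀ * (star h₀ * σ j * h₀) = star h₀ * σ i * (h₀ * star h₀) * σ j * h₀ := by
          noncomm_ring
      _ = _ := by rw [hG.ms _ hh₀]; noncomm_ring) (D h₀) (norm_nonneg _) h1
    (fun i => norm_le_pi_norm (fun i => star h₀ * σ i * h₀ - ρ i) i)
  have h3 : D (h₀ * h₁) ≤ D h₀ / 2 := by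
    simp only [hD]
    rw [pi_norm_le_iff_of_nonneg (by positivity)]
    intro i
    have e : star (h₀ * h₁) * σ i * (h₀ * h₁) = star h₁ * (star h₀ * σ i * h₀) * h₁ := by
      rw [star_mul]; noncomm_ring
    rw [e]
    exact h2 i
  have h4 : D h₀ ≤ D (h₀ * h₁) := hmin (hG.mul _ hh₀ _ hh₁)
  have h5 : 0 ≤ D h₀ := norm_nonneg _
  have h6 : D h₀ = 0 := by linarith
  refine ⟨h₀, hh₀, fun i => ?_⟩
  have h7 : (fun i => star h₀ * σ i * h₀ - ρ i) = 0 := norm_eq_zero.1 h6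
  exact sub_eq_zero.1 (congrFun h7 i)

/-- There are finitely many conjugacy classes of homomorphisms of a finite group into `G`. -/
theorem finite_classes (hG : IsG G L) (ι : Type) [Fintype ι] [Nonempty ι]
    (t : ι → Equiv.Perm ι) :
    ∃ S : Set (ι → 𝔸), S.Finite ∧ (∀ ρ ∈ S, ∀ i, ρ i ∈ G) ∧
      ∀ σ : ι → 𝔸, (∀ i, σ i ∈ G) → (∀ i j, σ i * σ j = σ (t i j)) →
        ∃ ρ ∈ S, ∃ h ∈ G, ∀ i, star h * σ i * h = ρ i := by
  obtain ⟨δ₀, hδ₀, hrigid⟩ := rigid hG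
  set H : Set (ι → 𝔸) := {σ | (∀ i, σ i ∈ G) ∧ ∀ i j, σ i * σ j = σ (t i j)} with hH
  have htb : TotallyBounded H := by
    have : ProperSpace 𝔸 := FiniteDimensional.proper ℝ 𝔸
    have : ProperSpace (ι → 𝔸) := pi_properSpace
    refine (isCompact_closedBall (0 : ι → 𝔸) ‖(1 : 𝔸)‖).totallyBounded.subset fun σ hσ => ?_
    rw [mem_closedBall_zero_iff, pi_norm_le_iff_of_nonneg (norm_nonneg _)]
    exact fun i => (hG.norm_le (hσ.1 i)).le
  obtain ⟨S, hSH, hSf, hS⟩ := Metric.finite_approx_of_totallyBounded htb δ₀ hδ₀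
  refine ⟨S, hSf, fun ρ hρ => (hSH hρ).1, fun σ hσ hσt => ?_⟩
  have h1 := hS (show σ ∈ H from ⟨hσ, hσt⟩)
  simp only [Set.mem_iUnion] at h1
  obtain ⟨ρ, hρ, h2⟩ := h1
  refine ⟨ρ, hρ, hrigid ι t ρ σ (hSH hρ).1 hσ (hSH hρ).2 hσt fun i => ?_⟩
  rw [mem_ball_iff_norm, pi_norm_lt_iff hδ₀] at h2
  exact h2 i

end Pool.Agent.R738.PF
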